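import Mathlib

/-!
# MP_aa036a_co: permutations that strongly avoid 321 and 1342
-/

set_option autoImplicit false

open Finset Equiv

namespace Pool.Agent.Results.MP_aa036a_co.StrongAvoid

/-- The permutation `π` of `n` letters contains the pattern `τ` of length `k` (one-line
notation): there are `k` positions at which `π` is order-isomorphic to `τ`. -/
def Contains {n k : ℕ} (τ : Fin k → ℕ) (π : Perm (Fin n)) : Prop :=
  ∃ i : Fin k → Fin n, StrictMono i ∧ ∀ s t : Fin k, π (i s) < π (i t) ↔ τ s < τ t

/-- `π` strongly avoids `τ`: neither `π` nor its square contains `τ`. -/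
def StronglyAvoids {n k : ℕ} (τ : Fin k → ℕ) (π : Perm (Fin n)) : Prop :=
  ¬ Contains τ π ∧ ¬ Contains τ (π * π)

/-! ### Permutations as functions on the naturals -/

section ex

variable {k : ℕ}

/-- extension of a permutation of `Fin k` by the identity. -/
def ex (σ : Perm (Fin k)) (t : ℕ) : ℕ := if h : t < k then (σ ⟨t, h⟩ : ℕ) else t

theorem ex_val (σ : Perm (Fin k)) (t : Fin k) : ex σ t = (σ t : ℕ) := by
  simp [ex]

theorem ex_lt (σ : Perm (Fin k)) {t : ℕ} (h : t < k) : ex σ t < k := by
  simp [ex, h]

theorem ex_ge (σ : Perm (Fin k)) {t : ℕ} (h : k ≤ t) : ex σ t = t := by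
  simp [ex, Nat.not_lt.2 h]

theorem ex_mul (σ τ : Perm (Fin k)) (t : ℕ) : ex (σ * τ) t = ex σ (ex τ t) := by
  by_cases h : t < k
  · simp [ex, h]
  · rw [ex_ge _ (by omega), ex_ge τ (by omega), ex_ge _ (by omega)]

theorem ex_one (t : ℕ) : ex (1 : Perm (Fin k)) t = t := by
  by_cases h : t < k
  · simp [ex, h]
  · rw [ex_ge _ (by omega)]

theorem ex_inv_ex (σ : Perm (Fin k)) (t : ℕ) : ex σ⁻¹ (ex σ t) = t := by
  rw [← ex_mul, inv_mul_cancel, ex_one]

theorem ex_ex_inv (σ : Perm (Fin k)) (t : ℕ) : ex σ (ex σ⁻¹ t) = t := by
  rw [← ex_mul, mul_inv_cancel, ex_one]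

theorem ex_inj (σ : Perm (Fin k)) : Function.Injective (ex σ) := fun s t h => by
  rw [← ex_inv_ex σ s, h, ex_inv_ex]

theorem ex_injective : Function.Injective (ex : Perm (Fin k) → ℕ → ℕ) := by
  intro σ τ h
  ext t
  rw [← ex_val, ← ex_val, h]

theorem exists_ex {p : ℕ → ℕ} (h1 : ∀ i, k ≤ i → p i = i) (h2 : ∀ i, i < k → p i < k)
    (h3 : Function.Injective p) : ∃ σ : Perm (Fin k), ex σ = p := by
  have hb : Function.Bijective (fun i : Fin k => (⟨p i, h2 i i.isLt⟩ : Fin k)) := by
    apply Finite.injective_iff_bijective.1
    intro i j hij
    simp only [Fin.mk.injEq] at hij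
    exact Fin.ext (h3 hij)
  refine ⟨Equiv.ofBijective _ hb, ?_⟩
  funext t
  unfold ex
  split_ifs with h
  · simp
  · exact (h1 t (by omega)).symm

end ex

/-- both patterns are avoided. -/
def Av (p : ℕ → ℕ) : Prop :=
  (∀ i j k, i < j → j < k → p k < p j → ¬ p j < p i) ∧
  (∀ i j k l, i < j → j < k → k < l → p i < p l → p l < p j → ¬ p j < p k)

theorem contains_321 {n : ℕ} (π : Perm (Fin n)) :
    Contains ![3, 2, 1] π ↔
      ∃ i j k, i < j ∧ j < k ∧ ex π k < ex π j ∧ ex π j < ex π i := by
  constructor
  · rintro ⟨x, hx, h⟩
    refine ⟨x 0, x 1, x 2, hx (by decide), hx (by decide), ?_, ?_⟩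
    · have := (h 2 1).2 (by decide)
      rw [ex_val, ex_val]
      exact this
    · have := (h 1 0).2 (by decide)
      rw [ex_val, ex_val]
      exact this
  · rintro ⟨i, j, k, hij, hjk, h1, h2⟩
    have hk : k < n := by
      by_contra hk
      have e1 := ex_ge π (t := k) (by omega)
      by_cases hj : j < n
      · have := ex_lt π hj
        omega
      · have := ex_ge π (t := j) (by omega)
        omega
    refine ⟨![⟨i, by omega⟩, ⟨j, by omega⟩, ⟨k, hk⟩], ?_, ?_⟩
    · intro a b hab
      fin_cases a <;> fin_cases b <;> simp_all <;> omega
    · have e1 : (π ⟨i, by omega⟩ : ℕ) = ex π i := (ex_val π ⟨i, by omega⟩).symm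
      have e2 : (π ⟨j, by omega⟩ : ℕ) = ex π j := (ex_val π ⟨j, by omega⟩).symm
      have e3 : (π ⟨k, hk⟩ : ℕ) = ex π k := (ex_val π ⟨k, hk⟩).symm
      intro a b
      fin_cases a <;> fin_cases b <;> simp [Fin.lt_def, e1, e2, e3] <;> omega

theorem contains_1342 {n : ℕ} (π : Perm (Fin n)) :
    Contains ![1, 3, 4, 2] π ↔
      ∃ i j k l, i < j ∧ j < k ∧ k < l ∧ ex π i < ex π l ∧ ex π l < ex π j ∧
        ex π j < ex π k := by
  constructor
  · rintro ⟨x, hx, h⟩
    refine ⟨x 0, x 1, x 2, x 3, hx (by decide), hx (by decide), hx (by decide), ?_, ?_, ?_⟩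
    · have := (h 0 3).2 (by decide)
      rw [ex_val, ex_val]
      exact this
    · have := (h 3 1).2 (by decide)
      rw [ex_val, ex_val]
      exact this
    · have := (h 1 2).2 (by decide)
      rw [ex_val, ex_val]
      exact this
  · rintro ⟨i, j, k, l, hij, hjk, hkl, h1, h2, h3⟩
    have hl : l < n := by
      by_contra hl
      have e1 := ex_ge π (t := l) (by omega)
      by_cases hj : j < n
      · have := ex_lt π hj
        omega
      · have := ex_ge π (t := j) (by omega)
        omega
    refine ⟨![⟨i, by omega⟩, ⟨j, by omega⟩, ⟨k, by omega⟩, ⟨l, hl⟩], ?_, ?_⟩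
    · intro a b hab
      fin_cases a <;> fin_cases b <;> simp_all <;> omega
    · have e1 : (π ⟨i, by omega⟩ : ℕ) = ex π i := (ex_val π ⟨i, by omega⟩).symm
      have e2 : (π ⟨j, by omega⟩ : ℕ) = ex π j := (ex_val π ⟨j, by omega⟩).symm
      have e3 : (π ⟨k, by omega⟩ : ℕ) = ex π k := (ex_val π ⟨k, by omega⟩).symm
      have e4 : (π ⟨l, hl⟩ : ℕ) = ex π l := (ex_val π ⟨l, hl⟩).symm
      intro a b
      fin_cases a <;> fin_cases b <;> simp [Fin.lt_def, e1, e2, e3, e4] <;> omega

theorem av_iff {n : ℕ} (π : Perm (Fin n)) :
    (¬ Contains ![3, 2, 1] π ∧ ¬ Contains ![1, 3, 4, 2] π) ↔ Av (ex π) := by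
  rw [contains_321, contains_1342]
  unfold Av
  constructor
  · rintro ⟨h1, h2⟩
    exact ⟨fun i j k a b c d => h1 ⟨i, j, k, a, b, c, d⟩,
      fun i j k l a b c d e f => h2 ⟨i, j, k, l, a, b, c, d, e, f⟩⟩
  · rintro ⟨h1, h2⟩
    exact ⟨fun ⟨i, j, k, a, b, c, d⟩ => h1 i j k a b c d,
      fun ⟨i, j, k, l, a, b, c, d, e, f⟩ => h2 i j k l a b c d e f⟩

/-- the rotation by `r`. -/
def rot (n r i : ℕ) : ℕ := if n ≤ i then i else if i + r < n then i + r else i + r - n

/-! ### The structure -/

section structure_

variable {N : ℕ} {p g : ℕ → ℕ}

theorem core (hN : 2 ≤ N) (hpg : ∀ x, p (g x) = x) (hgp : ∀ x, g (p x) = x)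
    (hge : ∀ x, N < x → p x = x) (hle : ∀ x, x ≤ N → p x ≤ N) (gle : ∀ x, x ≤ N → g x ≤ N)
    (h1 : Av p) (h2 : Av (fun i => p (p i))) :
    p N = N ∨ (p N = N - 1 ∧ p (N - 1) = N) ∨
      ∃ r, 1 ≤ r ∧ r ≤ N ∧ p = rot (N + 1) r := by
  have inj : ∀ x y, p x = p y → x = y := fun x y h => by rw [← hgp x, h, hgp]
  obtain ⟨a321, a1342⟩ := h1
  obtain ⟨q321, q1342⟩ := h2
  dsimp only at q321 q1342
  have hP : p (g N) = N := hpg N
  have hPle : g N ≤ N := gle N le_rfl
  generalize g N = P at hP hPle
  by_cases hPN : P = N
  · left
    rw [← hPN]
    rw [hPN] at hP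
    rw [hPN, hP]
  have hPlt : P < N := by omega
  -- values different from N away from P
  have hne : ∀ i, i ≤ N → i ≠ P → p i < N := by
    intro i hi hiP
    have := hle i hi
    rcases Nat.lt_or_ge (p i) N with h | h
    · exact h
    · exact absurd (inj i P (by omega)) hiP
  -- increasing after P
  have hinc : ∀ i j, P < i → i < j → j ≤ N → p i < p j := by
    intro i j hi hij hj
    by_contra hc
    have e1 : p i ≠ p j := fun h => by have := inj _ _ h; omega
    exact a321 P i j hi hij (by omega) (by have := hne i (by omega) (by omega); omega)
  obtain ⟨b, hb⟩ : ∃ b, p (P + 1) = b := ⟨_, rfl⟩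
  have hbN : b < N := by rw [← hb]; exact hne _ (by omega) (by omega)
  have hR : ∀ i, P < i → i ≤ N → b ≤ p i := by
    intro i hi hiN
    rcases Nat.lt_or_ge (P + 1) i with h | h
    · have := hinc (P + 1) i (by omega) h hiN
      omega
    · have : i = P + 1 := by omega
      rw [this, hb]
  have hbne : ∀ i, i ≤ P → p i ≠ b := by
    intro i hi h
    rw [← hb] at h
    have := inj _ _ h
    omega
  -- the low part stays low
  have hlow : ∀ i j, i < j → j < P → p i < b → p j < b := by
    intro i j hij hj hi
    by_contra hc
    have e1 := hbne j (by omega)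
    exact a1342 i j P (P + 1) hij hj (by omega) (by omega) (by omega)
      (by have := hne j (by omega) (by omega); omega)
  by_cases h0 : 0 < P ∧ b < p 0
  swap
  · -- everything before P is low
    have hL : ∀ i, i < P → p i < b := by
      intro i hi
      have e0 : p 0 < b := by
        have := hbne 0 (by omega)
        omega
      rcases Nat.eq_zero_or_pos i with h | h
      · rw [h]; exact e0
      · exact hlow 0 i h hi e0
    -- the values after P
    have hv : ∀ m i, i + m = N → P < i → p i + 1 = i := by
      intro m
      induction m with
      | zero =>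
        intro i hi hPi
        have hiN : i = N := by omega
        subst hiN
        have e1 := hne i le_rfl (by omega)
        have e2 := hR i hPi le_rfl
        have e3 := gle (i - 1) (by omega)
        have e4 := hpg (i - 1)
        generalize g (i - 1) = j at e3 e4
        by_cases hj : j < P
        · have := hL j hj
          omega
        · have hj2 : j ≠ P := fun h => by rw [h, hP] at e4; omega
          by_cases hj3 : j = i
          · rw [hj3] at e4; omega
          · have := hinc j i (by omega) (by omega) le_rfl
            omega
      | succ m ih =>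
        intro i hi hPi
        have e0 := ih (i + 1) (by omega) (by omega)
        have e1 := hinc i (i + 1) (by omega) (by omega) (by omega)
        have e2 := hR i hPi (by omega)
        have e3 := gle (i - 1) (by omega)
        have e4 := hpg (i - 1)
        generalize g (i - 1) = j at e3 e4
        by_cases hj : j < P
        · have := hL j hj
          omega
        · have hj2 : j ≠ P := fun h => by rw [h, hP] at e4; omega
          rcases lt_trichotomy j i with h | h | h
          · have := hinc j i (by omega) (by omega) (by omega)
            omega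
          · rw [h] at e4; omega
          · by_cases hj3 : j = i + 1
            · rw [hj3] at e4; omega
            · have := hinc (i + 1) j (by omega) (by omega) (by omega)
              omega
    have hv' : ∀ i, P < i → i ≤ N → p i = i - 1 := by
      intro i h1 h2
      have := hv (N - i) i (by omega) h1
      omega
    have hbP : b = P := by
      have := hv' (P + 1) (by omega) (by omega)
      omega
    subst hbP
    by_cases hc1 : b + 1 = N
    · right; left
      refine ⟨hv' N (by omega) le_rfl, ?_⟩
      have : N - 1 = b := by omega
      rw [this, hP]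
    · by_cases hc0 : b = 0
      · right; right
        refine ⟨N, by omega, le_rfl, ?_⟩
        funext i
        unfold rot
        split_ifs with c1 c2
        · exact hge i (by omega)
        · have : i = 0 := by omega
          rw [this, ← hc0, hP, hc0]
          omega
        · rw [hv' i (by omega) (by omega)]
          omega
      · exfalso
        have e0 : p (p 0) < b := hL _ (hL 0 (by omega))
        have e1 : p (p b) = N - 1 := by rw [hP, hv' N (by omega) le_rfl]
        have e2 : p (p (b + 1)) = N := by rw [hb, hP]
        have e3 : p (p (b + 2)) = b := by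
          rw [hv' (b + 2) (by omega) (by omega)]
          have : b + 2 - 1 = b + 1 := by omega
          rw [this, hb]
        exact q1342 0 b (b + 1) (b + 2) (by omega) (by omega) (by omega) (by omega)
          (by omega) (by omega)
  · obtain ⟨hP0, hb0⟩ := h0
    -- the threshold
    obtain ⟨s, hs1, hsP, hsb, hsb'⟩ : ∃ s, 1 ≤ s ∧ s ≤ P ∧ (∀ i, i < s → b < p i) ∧
        ∀ i, s ≤ i → i < P → p i < b := by
      have hex : ∃ s, s = P ∨ p s < b := ⟨P, Or.inl rfl⟩
      classical
      refine ⟨Nat.find hex, ?_, ?_, ?_, ?_⟩
      · rw [Nat.one_le_iff_ne_zero]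
        intro h
        rcases (Nat.find_eq_zero hex).1 h with h | h <;> omega
      · exact Nat.find_min' hex (Or.inl rfl)
      · intro i hi
        have h1 := Nat.find_min hex hi
        push Not at h1
        have h2 : Nat.find hex ≤ P := Nat.find_min' hex (Or.inl rfl)
        have := hbne i (by omega)
        omega
      · intro i hi hiP
        rcases Nat.find_spec hex with h | h
        · omega
        · rcases Nat.lt_or_ge (Nat.find hex) i with h' | h'
          · exact hlow _ i h' hiP h
          · have : i = Nat.find hex := by omega
            rw [this]; exact h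
    -- increasing high part
    have hhi : ∀ i j, i < j → j < s → p i < p j := by
      intro i j hij hj
      by_contra hc
      have e1 : p i ≠ p j := fun h => by have := inj _ _ h; omega
      have e2 := hsb j hj
      exact a321 i j (P + 1) hij (by omega) (by omega) (by omega)
    -- increasing low part
    have hlo : ∀ i j, s ≤ i → i < j → j < P → p i < p j := by
      intro i j hi hij hj
      by_contra hc
      have e1 : p i ≠ p j := fun h => by have := inj _ _ h; omega
      have e2 := hsb' i hi (by omega)
      exact a321 0 i j (by omega) hij (by omega) (by omega)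
    obtain ⟨c, hc⟩ : ∃ c, p 0 = c := ⟨_, rfl⟩
    have hstep : ∀ i, i + 1 < s → p (i + 1) = p i + 1 := by
      intro i hi
      have e1 := hhi i (i + 1) (by omega) hi
      by_contra hcon
      have e2 := hle (i + 1) (by omega)
      have e3 := gle (p i + 1) (by omega)
      have e4 := hpg (p i + 1)
      generalize g (p i + 1) = j at e3 e4
      have e5 := hsb i (by omega)
      rcases Nat.lt_or_ge j s with h | h
      · rcases lt_trichotomy j i with h' | h' | h'
        · have := hhi j i h' (by omega); omega
        · rw [h'] at e4; omega
        · rcases Nat.lt_or_ge (i + 1) j with h'' | h''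
          · have := hhi (i + 1) j h'' h; omega
          · have : j = i + 1 := by omega
            rw [this] at e4; omega
      · rcases lt_trichotomy j P with h' | h' | h'
        · have := hsb' j h h'; omega
        · rw [h', hP] at e4
          omega
        · exact a1342 i (i + 1) P j (by omega) (by omega) (by omega) (by omega) (by omega)
            (by have := hne (i + 1) (by omega) (by omega); omega)
    have hA : ∀ i, i < s → p i = c + i := by
      intro i
      induction i with
      | zero => intro _; rw [hc]; rfl
      | succ i ih =>
        intro hi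
        rw [hstep i hi, ih (by omega)]
        ring
    have hlow0 : ∀ j, j ≤ N → p j < b → s ≤ j ∧ j < P := by
      intro j hjN hj
      constructor
      · by_contra h
        have := hsb j (by omega)
        omega
      · by_contra h
        rcases Nat.lt_or_ge P j with h' | h'
        · have := hR j h' hjN
          omega
        · have : j = P := by omega
          rw [this, hP] at hj
          omega
    have hstep2 : ∀ i, s ≤ i → i + 1 < P → p (i + 1) = p i + 1 := by
      intro i hi hiP
      have e1 := hlo i (i + 1) hi (by omega) hiP
      by_contra hcon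
      have e5 := hsb' (i + 1) (by omega) hiP
      have e3 := gle (p i + 1) (by omega)
      have e4 := hpg (p i + 1)
      generalize g (p i + 1) = j at e3 e4
      obtain ⟨e6, e7⟩ := hlow0 j e3 (by omega)
      rcases lt_trichotomy j i with h' | h' | h'
      · have := hlo j i e6 h' (by omega); omega
      · rw [h'] at e4; omega
      · rcases Nat.lt_or_ge (i + 1) j with h'' | h''
        · have := hlo (i + 1) j (by omega) h'' e7; omega
        · have : j = i + 1 := by omega
          rw [this] at e4; omega
    have hB : ∀ i, s ≤ i → i < P → p i = i - s := by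
      intro i hi
      induction i, hi using Nat.le_induction with
      | base =>
        intro hsP'
        have e5 := hsb' s le_rfl hsP'
        have e3 := gle 0 (by omega)
        have e4 := hpg 0
        generalize g 0 = j at e3 e4
        obtain ⟨e6, e7⟩ := hlow0 j e3 (by omega)
        rcases Nat.lt_or_ge s j with h | h
        · have := hlo s j le_rfl h e7
          omega
        · have : j = s := by omega
          rw [this] at e4
          omega
      | succ i hi ih =>
        intro hiP
        rw [hstep2 i hi hiP, ih (by omega)]
        omega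
    obtain ⟨a, ha⟩ : ∃ a, P = s + a := ⟨P - s, by omega⟩
    have hba : b = a := by
      have e1 : a ≤ b := by
        rcases Nat.eq_zero_or_pos a with h | h
        · omega
        · have := hB (P - 1) (by omega) (by omega)
          have := hsb' (P - 1) (by omega) (by omega)
          omega
      by_contra hne'
      have e3 := gle a (by omega)
      have e4 := hpg a
      generalize g a = j at e3 e4
      obtain ⟨e6, e7⟩ := hlow0 j e3 (by omega)
      have := hB j e6 e7
      omega
    subst hba
    subst ha
    have hcb : b + 1 ≤ c := by omega
    have hcs : c + s ≤ N := by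
      have := hne (s - 1) (by omega) (by omega)
      rw [hA (s - 1) (by omega)] at this
      omega
    have hRA : ∀ i, s + b < i → i ≤ N → p i < c ∨ c + s ≤ p i := by
      intro i hi hiN
      by_contra hcon
      push Not at hcon
      have := hA (p i - c) (by omega)
      have : p (p i - c) = p i := by omega
      have := inj _ _ this
      omega
    have hCD : ∀ i, s + b + 1 ≤ i → i ≤ N →
        (i ≤ s + c → p i = i - s - 1) ∧ (s + c < i → p i = i - 1) := by
      intro i hi
      induction i, hi using Nat.le_induction with
      | base =>
        intro _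
        constructor
        · intro _; rw [hb]; omega
        · intro h; omega
      | succ i hi ih =>
        intro hiN
        obtain ⟨ih1, ih2⟩ := ih (by omega)
        have e1 := hinc i (i + 1) (by omega) (by omega) hiN
        have e2 := hne (i + 1) hiN (by omega)
        have e3 := hRA i (by omega) (by omega)
        have e4 := hRA (i + 1) (by omega) hiN
        have e9 := hR i (by omega) (by omega)
        -- any value above `p i` not used by the high part and below N bounds `p (i+1)`
        have key : ∀ v, p i < v → v < N → (v < c ∨ c + s ≤ v) → p (i + 1) ≤ v := by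
          intro v hv1 hv2 hv3
          have e5 := gle v (by omega)
          have e6 := hpg v
          generalize g v = j at e5 e6
          rcases Nat.lt_or_ge j s with h | h
          · have := hA j h
            omega
          · rcases lt_trichotomy j (s + b) with h' | h' | h'
            · have := hsb' j h h'
              omega
            · rw [h', hP] at e6; omega
            · rcases lt_trichotomy j i with h'' | h'' | h''
              · have := hinc j i h' h'' (by omega); omega
              · rw [h''] at e6; omega
              · rcases Nat.lt_or_ge (i + 1) j with h3 | h3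
                · have := hinc (i + 1) j (by omega) h3 e5; omega
                · have : j = i + 1 := by omega
                  rw [this] at e6; omega
        constructor
        · intro h
          have e7 := ih1 (by omega)
          have := key (p i + 1) (by omega) (by omega) (by omega)
          omega
        · intro h
          by_cases h' : i = s + c
          · have e7 := ih1 (by omega)
            have := key (c + s) (by omega) (by omega) (by omega)
            omega
          · have e7 := ih2 (by omega)
            have := key (p i + 1) (by omega) (by omega) (by omega)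
            omega
    have hC : ∀ i, s + b + 1 ≤ i → i ≤ s + c → p i = i - s - 1 := fun i h1 h2 =>
      (hCD i h1 (by omega)).1 h2
    have hD : ∀ i, s + c + 1 ≤ i → i ≤ N → p i = i - 1 := fun i h1 h2 =>
      (hCD i (by omega) h2).2 h1
    -- squares
    by_cases ht : c + s < N
    · exfalso
      have f1 : p (p (s + b)) = N - 1 := by rw [hP, hD N (by omega) le_rfl]
      have f2 : p (p N) ≤ N - 2 := by
        rw [hD N (by omega) le_rfl]
        by_cases h : s + c + 1 ≤ N - 1
        · rw [hD (N - 1) h (by omega)]; omega
        · rw [hC (N - 1) (by omega) (by omega)]; omega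
      by_cases hk : s + b + 1 ≤ c
      · have f3 : p (p 0) = c - s - 1 := by rw [hc, hC c (by omega) (by omega)]
        have f4 : p (p (2 * s + b + 1)) = N := by
          rw [hC (2 * s + b + 1) (by omega) (by omega)]
          have : 2 * s + b + 1 - s - 1 = s + b := by omega
          rw [this, hP]
        have f5 : c - s - 1 < p (p N) := by
          rw [hD N (by omega) le_rfl]
          by_cases h : s + c + 1 ≤ N - 1
          · rw [hD (N - 1) h (by omega)]; omega
          · rw [hC (N - 1) (by omega) (by omega)]; omega
        exact q1342 0 (s + b) (2 * s + b + 1) N (by omega) (by omega) (by omega) (by omega)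
          (by omega) (by omega)
      · have f3 : p (p (s + b - c)) = N := by
          rw [hA (s + b - c) (by omega)]
          have : c + (s + b - c) = s + b := by omega
          rw [this, hP]
        exact q321 (s + b - c) (s + b) N (by omega) (by omega) (by omega) (by omega)
    · have hNc : N = c + s := by omega
      subst hNc
      rcases Nat.eq_zero_or_pos b with hb' | hb'
      · subst hb'
        right; right
        refine ⟨c, by omega, by omega, ?_⟩
        funext i
        unfold rot
        split_ifs with c1 c2
        · exact hge i (by omega)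
        · rcases Nat.lt_or_ge i s with h | h
          · rw [hA i h]; omega
          · have : i = s + 0 := by omega
            rw [this, hP]; omega
        · rw [hC i (by omega) (by omega)]
          omega
      · exfalso
        have f1 : p (p s) = c := by
          rw [hB s le_rfl (by omega), Nat.sub_self, hc]
        have f2 : p (p (s + b)) = c - 1 := by
          rw [hP, hC (c + s) (by omega) (by omega)]
          omega
        by_cases hk : s + b + 1 ≤ c
        · by_cases hsb2 : b ≤ s
          · have f3 : p (p (2 * s + 1)) = 0 := by
              rw [hC (2 * s + 1) (by omega) (by omega)]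
              have : 2 * s + 1 - s - 1 = s := by omega
              rw [this, hB s le_rfl (by omega), Nat.sub_self]
            exact q321 s (s + b) (2 * s + 1) (by omega) (by omega) (by omega) (by omega)
          · by_cases hk2 : s + b + 2 ≤ c
            · have f3 : p (p (c + s)) = c - s - 2 := by
                rw [hC (c + s) (by omega) (by omega)]
                have : c + s - s - 1 = c - 1 := by omega
                rw [this, hC (c - 1) (by omega) (by omega)]
                omega
              exact q321 s (s + b) (c + s) (by omega) (by omega) (by omega) (by omega)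
            · have f3 : p (p (s + b + 1)) = b - s := by
                rw [hC (s + b + 1) (by omega) (by omega)]
                have : s + b + 1 - s - 1 = b := by omega
                rw [this, hB b (by omega) (by omega)]
              exact q321 s (s + b) (s + b + 1) (by omega) (by omega) (by omega) (by omega)
        · have f3 : p (p (s + b - c)) = c + s := by
            rw [hA (s + b - c) (by omega)]
            have : c + (s + b - c) = s + b := by omega
            rw [this, hP]
          exact q321 (s + b - c) s (s + b) (by omega) (by omega) (by omega) (by omega)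

end structure_

/-! ### The three classes -/

/-- the strongly avoiding permutations of `{0, …, n - 1}`, as functions on the naturals. -/
def S (n : ℕ) : Set (ℕ → ℕ) :=
  {p | (∃ π : Perm (Fin n), ex π = p) ∧ Av p ∧ Av (fun i => p (p i))}

theorem mem_S {n : ℕ} {p : ℕ → ℕ} : p ∈ S n ↔
    (∀ i, n ≤ i → p i = i) ∧ (∀ i, i < n → p i < n) ∧ Function.Injective p ∧
      Av p ∧ Av (fun i => p (p i)) := by
  unfold S
  rw [Set.mem_ofPred_eq]
  constructor
  · rintro ⟨⟨π, rfl⟩, h1, h2⟩
    exact ⟨fun i hi => ex_ge π hi, fun i hi => ex_lt π hi, ex_inj π, h1, h2⟩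
  · rintro ⟨h1, h2, h3, h4, h5⟩
    exact ⟨exists_ex h1 h2 h3, h4, h5⟩

/-- append the swapped pair. -/
def app (m : ℕ) (p : ℕ → ℕ) (i : ℕ) : ℕ := if i = m then m + 1 else if i = m + 1 then m else p i

theorem app_av {m : ℕ} {p : ℕ → ℕ} (h1 : ∀ i, m ≤ i → p i = i) (h2 : ∀ i, i < m → p i < m)
    (h : Av p) : Av (app m p) := by
  obtain ⟨h3, h4⟩ := h
  have hr : ∀ i, (i < m ∧ app m p i = p i ∧ p i < m) ∨ (i = m ∧ app m p i = m + 1) ∨
      (i = m + 1 ∧ app m p i = m) ∨ (m + 2 ≤ i ∧ app m p i = i ∧ p i = i) := by
    intro i
    unfold app
    rcases lt_trichotomy i m with h | h | h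
    · left
      rw [if_neg (by omega), if_neg (by omega)]
      exact ⟨h, rfl, h2 i h⟩
    · right; left
      rw [if_pos h]
      exact ⟨h, rfl⟩
    · by_cases h' : i = m + 1
      · right; right; left
        rw [if_neg (by omega), if_pos h']
        exact ⟨h', rfl⟩
      · right; right; right
        rw [if_neg (by omega), if_neg (by omega)]
        exact ⟨by omega, h1 i (by omega), h1 i (by omega)⟩
  constructor
  · intro i j k hij hjk a1 a2
    have e := h3 i j k hij hjk
    rcases hr i with u | u | u | u <;> rcases hr j with v | v | v | v <;>
      rcases hr k with w | w | w | w <;> omega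
  · intro i j k l hij hjk hkl a1 a2 a3
    have e := h4 i j k l hij hjk hkl
    rcases hr i with u | u | u | u <;> rcases hr j with v | v | v | v <;>
      rcases hr k with w | w | w | w <;> rcases hr l with x | x | x | x <;> omega

theorem app_av_inv {m : ℕ} {p : ℕ → ℕ} (h1 : ∀ i, m ≤ i → p i = i) (h2 : ∀ i, i < m → p i < m)
    (h : Av (app m p)) : Av p := by
  obtain ⟨h3, h4⟩ := h
  have hr : ∀ i, (i < m ∧ app m p i = p i ∧ p i < m) ∨ (m ≤ i ∧ p i = i) := by
    intro i
    unfold app
    rcases Nat.lt_or_ge i m with h | h
    · left
      rw [if_neg (by omega), if_neg (by omega)]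
      exact ⟨h, rfl, h2 i h⟩
    · right
      exact ⟨h, h1 i h⟩
  constructor
  · intro i j k hij hjk a1 a2
    have e := h3 i j k hij hjk
    rcases hr i with u | u <;> rcases hr j with v | v <;> rcases hr k with w | w <;> omega
  · intro i j k l hij hjk hkl a1 a2 a3
    have e := h4 i j k l hij hjk hkl
    rcases hr i with u | u <;> rcases hr j with v | v <;>
      rcases hr k with w | w <;> rcases hr l with x | x <;> omega

theorem app_sq {m : ℕ} {p : ℕ → ℕ} (h1 : ∀ i, m ≤ i → p i = i) (h2 : ∀ i, i < m → p i < m) :
    (fun i => app m p (app m p i)) = fun i => p (p i) := by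
  funext i
  unfold app
  rcases lt_trichotomy i m with h | h | h
  · have := h2 i h
    rw [if_neg (by omega : ¬ i = m), if_neg (by omega : ¬ i = m + 1), if_neg (by omega),
      if_neg (by omega)]
  · rw [if_pos h, if_neg (by omega), if_pos rfl, h1 i (by omega), h1 i (by omega), h]
  · by_cases h' : i = m + 1
    · rw [if_neg (by omega : ¬ i = m), if_pos h', if_pos rfl, h1 i (by omega), h1 i (by omega), h']
    · rw [if_neg (by omega : ¬ i = m), if_neg (by omega : ¬ i = m + 1), h1 i (by omega),
        if_neg (by omega), if_neg (by omega)]

theorem rot_lt {n r i : ℕ} (hr : r ≤ n) (hi : i < n) : rot n r i < n := by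
  unfold rot
  split_ifs <;> omega

theorem rot_inj {n r : ℕ} (hr : r ≤ n) : Function.Injective (rot n r) := by
  intro i j h
  unfold rot at h
  split_ifs at h <;> omega

theorem rot_av {n r : ℕ} (hr : r ≤ n) : Av (rot n r) := by
  have hv : ∀ i, (i + r < n ∧ rot n r i = i + r) ∨ (n ≤ i + r ∧ i < n ∧ rot n r i + n = i + r) ∨
      (n ≤ i ∧ rot n r i = i) := by
    intro i
    unfold rot
    split_ifs <;> omega
  constructor
  · intro i j k hij hjk a1 a2
    rcases hv i with u | u | u <;> rcases hv j with v | v | v <;>
      rcases hv k with w | w | w <;> omega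
  · intro i j k l hij hjk hkl a1 a2 a3
    rcases hv i with u | u | u <;> rcases hv j with v | v | v <;>
      rcases hv k with w | w | w <;> rcases hv l with x | x | x <;> omega

theorem rot_sq {n r : ℕ} (hr : r ≤ n) :
    (fun i => rot n r (rot n r i)) = rot n (if 2 * r < n then 2 * r else 2 * r - n) := by
  funext i
  unfold rot
  split_ifs <;> omega

theorem S_succ {m : ℕ} (hm : 1 ≤ m) :
    S (m + 2) = (S (m + 1) ∪ app m '' S m) ∪ rot (m + 2) '' Set.Icc 1 (m + 1) := by
  ext p
  constructor
  · intro hp
    obtain ⟨⟨π, rfl⟩, h1, h2⟩ := hp
    have h := core (N := m + 1) (by omega) (ex_ex_inv π) (ex_inv_ex π)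
      (fun x hx => ex_ge π (by omega)) (fun x hx => by have := ex_lt π (t := x) (by omega); omega)
      (fun x hx => by have := ex_lt π⁻¹ (t := x) (by omega); omega) h1 h2
    rcases h with h | ⟨h, h'⟩ | ⟨r, hr1, hr2, hr⟩
    · left; left
      rw [mem_S]
      refine ⟨?_, ?_, ex_inj π, h1, h2⟩
      · intro i hi
        rcases Nat.lt_or_ge (m + 1) i with h' | h'
        · exact ex_ge π (by omega)
        · have : i = m + 1 := by omega
          rw [this, h]
      · intro i hi
        have e1 := ex_lt π (t := i) (by omega)
        have e2 : ex π i ≠ m + 1 := fun h' => by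
          rw [← h] at h'
          have := ex_inj π h'
          omega
        omega
    · left; right
      rw [Nat.add_sub_cancel] at h'
      have h0 : ex π (m + 1) = m := by rw [h]; rfl
      have e1 : app m (fun i => if i < m then ex π i else i) = ex π := by
        funext i
        unfold app
        dsimp only
        split_ifs with c1 c2 c3
        · rw [c1, h']
        · rw [c2, h0]
        · rfl
        · exact (ex_ge π (by omega)).symm
      have e2 : ∀ i, m ≤ i → (fun i => if i < m then ex π i else i) i = i := by
        intro i hi
        exact if_neg (by omega)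
      have e3 : ∀ i, i < m → (fun i => if i < m then ex π i else i) i < m := by
        intro i hi
        dsimp only
        rw [if_pos hi]
        have a1 := ex_lt π (t := i) (by omega)
        have a2 : ex π i ≠ m := fun h' => by
          have := ex_inj π (h'.trans h0.symm)
          omega
        have a3 : ex π i ≠ m + 1 := fun h'' => by
          have := ex_inj π (h''.trans h'.symm)
          omega
        omega
      refine ⟨fun i => if i < m then ex π i else i, ?_, e1⟩
      rw [mem_S]
      refine ⟨e2, e3, ?_, ?_, ?_⟩
      · intro i j hij
        dsimp only at hij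
        split_ifs at hij with c1 c2 c2
        · exact ex_inj π hij
        · have := e3 i c1
          dsimp only at this
          rw [if_pos c1] at this
          omega
        · have := e3 j c2
          dsimp only at this
          rw [if_pos c2] at this
          omega
        · exact hij
      · exact app_av_inv e2 e3 (by rw [e1]; exact h1)
      · rw [← app_sq e2 e3, e1]
        exact h2
    · right
      exact ⟨r, ⟨hr1, hr2⟩, hr.symm⟩
  · rintro ((hp | ⟨p, hp, rfl⟩) | ⟨r, ⟨hr1, hr2⟩, rfl⟩)
    · rw [mem_S] at hp ⊢
      obtain ⟨h1, h2, h3, h4, h5⟩ := hp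
      refine ⟨fun i hi => h1 i (by omega), fun i hi => ?_, h3, h4, h5⟩
      rcases Nat.lt_or_ge i (m + 1) with h | h
      · have := h2 i h
        omega
      · rw [h1 i h]; exact hi
    · rw [mem_S] at hp ⊢
      obtain ⟨h1, h2, h3, h4, h5⟩ := hp
      refine ⟨?_, ?_, ?_, app_av h1 h2 h4, by rw [app_sq h1 h2]; exact h5⟩
      · intro i hi
        unfold app
        rw [if_neg (by omega), if_neg (by omega), h1 i (by omega)]
      · intro i hi
        unfold app
        split_ifs with c1 c2
        · omega
        · omega
        · have := h2 i (by omega)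
          omega
      · intro i j hij
        unfold app at hij
        have a1 : ∀ x, x ≠ m → x ≠ m + 1 → p x ≠ m ∧ p x ≠ m + 1 := by
          intro x hx1 hx2
          rcases Nat.lt_or_ge x m with h | h
          · have := h2 x h
            omega
          · have := h1 x h
            omega
        split_ifs at hij with c1 c2 c3 c3 c4 c5 c6
        · omega
        · omega
        · have := a1 j c2 c3; omega
        · omega
        · omega
        · have := a1 j c4 c5; omega
        · have := a1 i c1 c3; omega
        · have := a1 i c1 c3; omega
        · exact h3 hij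
    · rw [mem_S]
      refine ⟨?_, fun i hi => rot_lt (by omega) hi, rot_inj (by omega), rot_av (by omega), ?_⟩
      · intro i hi
        unfold rot
        rw [if_pos hi]
      · rw [rot_sq (by omega)]
        apply rot_av
        split_ifs <;> omega

theorem finite_S (n : ℕ) : (S n).Finite := by
  apply Set.Finite.subset (Set.finite_range (ex : Perm (Fin n) → ℕ → ℕ))
  rintro p ⟨⟨π, h⟩, -⟩
  exact ⟨π, h⟩

theorem card_succ {m : ℕ} (hm : 1 ≤ m) :
    (S (m + 2)).ncard = (S (m + 1)).ncard + (S m).ncard + (m + 1) := by
  have hI : (app m '' S m).ncard = (S m).ncard := by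
    apply Set.InjOn.ncard_image
    intro p hp q hq h
    rw [mem_S] at hp hq
    funext i
    have e := congrFun h i
    unfold app at e
    rcases Nat.lt_or_ge i m with h' | h'
    · rwa [if_neg (by omega), if_neg (by omega), if_neg (by omega), if_neg (by omega)] at e
    · rw [hp.1 i h', hq.1 i h']
  have hJ : (rot (m + 2) '' Set.Icc 1 (m + 1)).ncard = m + 1 := by
    rw [Set.InjOn.ncard_image]
    · rw [Set.ncard_eq_toFinset_card']
      simp
    · intro r hr r' hr' h
      have e := congrFun h (m + 1)
      obtain ⟨a1, a2⟩ := hr
      obtain ⟨b1, b2⟩ := hr'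
      unfold rot at e
      rw [if_neg (by omega), if_neg (by omega), if_neg (by omega), if_neg (by omega)] at e
      omega
  rw [S_succ hm, Set.ncard_union_eq ?_ ((finite_S _).union ((finite_S _).image _))
    ((Set.finite_Icc _ _).image _), Set.ncard_union_eq ?_ (finite_S _) ((finite_S _).image _),
    hI, hJ]
  · rw [Set.disjoint_left]
    rintro p hp ⟨p', hp', rfl⟩
    rw [mem_S] at hp
    have := hp.1 (m + 1) le_rfl
    unfold app at this
    rw [if_neg (by omega), if_pos rfl] at this
    omega
  · rw [Set.disjoint_left]
    rintro p (hp | ⟨p', hp', rfl⟩) ⟨r, ⟨hr1, hr2⟩, hr⟩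
    · rw [mem_S] at hp
      have e := hp.1 (m + 1) le_rfl
      rw [← hr] at e
      unfold rot at e
      rw [if_neg (by omega), if_neg (by omega)] at e
      omega
    · have e1 := congrFun hr (m + 1)
      have e2 := congrFun hr m
      unfold rot app at e1 e2
      rw [if_neg (by omega), if_neg (by omega), if_neg (by omega), if_pos rfl] at e1
      rw [if_neg (by omega), if_neg (by omega), if_pos rfl] at e2
      omega

theorem card_small {n : ℕ} (hn : n ≤ 2) : (S n).ncard = n.factorial := by
  have h : S n = Set.range (ex : Perm (Fin n) → ℕ → ℕ) := by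
    apply Set.Subset.antisymm
    · rintro p ⟨⟨π, h⟩, -⟩
      exact ⟨π, h⟩
    · rintro p ⟨π, rfl⟩
      have key : ∀ π : Perm (Fin n), Av (ex π) := by
        intro π
        rw [← av_iff]
        constructor
        · rintro ⟨x, hx, -⟩
          have := Fintype.card_le_of_injective x hx.injective
          simp only [Fintype.card_fin] at this
          omega
        · rintro ⟨x, hx, -⟩
          have := Fintype.card_le_of_injective x hx.injective
          simp only [Fintype.card_fin] at this
          omega
      refine ⟨⟨π, rfl⟩, key π, ?_⟩
      have := key (π * π)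
      have e : ex (π * π) = fun i => ex π (ex π i) := by
        funext i
        exact ex_mul π π i
      rwa [e] at this
  rw [h, ← Set.image_univ, Set.ncard_image_of_injective _ ex_injective, Set.ncard_univ,
    Nat.card_eq_fintype_card, Fintype.card_perm, Fintype.card_fin]

theorem card_S : ∀ n, 1 ≤ n → (S n).ncard + n + 2 = 2 * Nat.fib (n + 2) := by
  intro n
  induction n using Nat.strong_induction_on with
  | _ n ih =>
    intro hn
    rcases Nat.lt_or_ge n 3 with h | h
    · rw [card_small (by omega)]
      interval_cases n <;> rfl
    · obtain ⟨m, rfl⟩ : ∃ m, n = m + 2 := ⟨n - 2, by omega⟩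
      have h1 := ih (m + 1) (by omega) (by omega)
      have h2 := ih m (by omega) (by omega)
      rw [card_succ (by omega)]
      have e1 : Nat.fib (m + 2 + 2) = Nat.fib (m + 2) + Nat.fib (m + 2 + 1) := Nat.fib_add_two
      have e2 : m + 1 + 2 = m + 2 + 1 := by omega
      rw [e2] at h1
      omega

/-- **MP_aa036a_co, Q1.** For every `n ≥ 1`, the number of permutations of `n` letters that
strongly avoid `321` and `1342` is `2 F_{n+2} - n - 2`. -/
theorem result (n : ℕ) (hn : 1 ≤ n) :
    (Nat.card {π : Perm (Fin n) // StronglyAvoids ![3, 2, 1] π ∧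
      StronglyAvoids ![1, 3, 4, 2] π} : ℤ) = 2 * (Nat.fib (n + 2) : ℤ) - n - 2 := by
  have h : S n = ex '' {π : Perm (Fin n) | StronglyAvoids ![3, 2, 1] π ∧
      StronglyAvoids ![1, 3, 4, 2] π} := by
    have key : ∀ π : Perm (Fin n), (StronglyAvoids ![3, 2, 1] π ∧
        StronglyAvoids ![1, 3, 4, 2] π) ↔ (Av (ex π) ∧ Av (fun i => ex π (ex π i))) := by
      intro π
      have e : (fun i => ex π (ex π i)) = ex (π * π) := by
        funext i
        exact (ex_mul π π i).symm
      rw [e, ← av_iff, ← av_iff]
      unfold StronglyAvoids
      tauto
    ext p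
    constructor
    · rintro ⟨⟨π, rfl⟩, h1, h2⟩
      exact ⟨π, (key π).2 ⟨h1, h2⟩, rfl⟩
    · rintro ⟨π, hπ, rfl⟩
      exact ⟨⟨π, rfl⟩, (key π).1 hπ⟩
  have h2 := card_S n hn
  rw [h, Set.ncard_image_of_injective _ ex_injective] at h2
  have h3 : Nat.card {π : Perm (Fin n) // StronglyAvoids ![3, 2, 1] π ∧
      StronglyAvoids ![1, 3, 4, 2] π} = {π : Perm (Fin n) | StronglyAvoids ![3, 2, 1] π ∧
      StronglyAvoids ![1, 3, 4, 2] π}.ncard := rfl
  rw [h3]
  omega

end Pool.Agent.Results.MP_aa036a_co.StrongAvoid
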